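import Mathlib

/-!
# Integral domains with common division are not definable by conditional equations among
commutative rings with common division

We give one commutative ring `R`, not an integral domain, such that every conditional equation which
is true in all integral domains with common division is true in the commutative ring with common
division built on `R`: the ring of all pairs `(f, g)` of power series over the rationals with the
same constant coefficient. It has zero divisors such as `(X, 0)` and `(0, X)`. An element `(f, g)`
of `R` is a unit iff `f` is a unit iff `g` is a unit, so both projections to the ring of power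
series preserve the common division, and together they embed the structure of `R` in the square of
the structure of the ring of power series.
-/

set_option autoImplicit false

universe u v

namespace Pool.Agent.Results.MP_faa006_lc.NotDefinable

/-- An algebra on `X` in the signature `(0, 1, ⊥, -, +, ·, ÷)`. -/
structure Alg (X : Type u) where
  zero : X
  one : X
  bot : X
  add : X → X → X
  neg : X → X
  mul : X → X → X
  div : X → X → X

/-- Terms over the variables `0, 1, 2, ...`. -/
inductive Term : Type
  | var (i : ℕ) : Term
  | zero : Term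
  | one : Term
  | bot : Term
  | add (s t : Term) : Term
  | neg (s : Term) : Term
  | mul (s t : Term) : Term
  | div (s t : Term) : Term

/-- The value of a term under an assignment. -/
def Term.eval {X : Type u} (M : Alg X) (e : ℕ → X) : Term → X
  | .var i => e i
  | .zero => M.zero
  | .one => M.one
  | .bot => M.bot
  | .add s t => M.add (s.eval M e) (t.eval M e)
  | .neg s => M.neg (s.eval M e)
  | .mul s t => M.mul (s.eval M e) (t.eval M e)
  | .div s t => M.div (s.eval M e) (t.eval M e)

/-- A conditional equation `e₁ ∧ ... ∧ e_n → e` (`n ≥ 0`); an equation `s = t` is a pair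
`(s, t)`. -/
structure CondEq where
  prem : List (Term × Term)
  concl : Term × Term

/-- The conditional equation `q` is true in the algebra `M`. -/
def Alg.Sat {X : Type u} (M : Alg X) (q : CondEq) : Prop :=
  ∀ e : ℕ → X, (∀ p ∈ q.prem, p.1.eval M e = p.2.eval M e) →
    q.concl.1.eval M e = q.concl.2.eval M e

/-- `Enl_⊥(R_÷)`, the commutative ring with common division built on the commutative ring `R`: the
new element `⊥` is `none`; every operation returns `⊥` if one argument is `⊥`; `x ÷ y = x * y⁻¹` if
`y` is a unit of `R`, and `x ÷ y = ⊥` otherwise. -/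
noncomputable def enl (R : Type u) [CommRing R] : Alg (Option R) where
  zero := some 0
  one := some 1
  bot := none
  add := fun x y => match x, y with
    | some a, some b => some (a + b)
    | _, _ => none
  neg := fun x => match x with
    | some a => some (-a)
    | none => none
  mul := fun x y => match x, y with
    | some a, some b => some (a * b)
    | _, _ => none
  div := fun x y => match x, y with
    | some a, some b => open Classical in if IsUnit b then some (a * Ring.inverse b) else none
    | _, _ => none

/-- An isomorphism of algebras. -/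
structure IsIso {X : Type u} {Y : Type v} (M : Alg X) (N : Alg Y) (f : X → Y) : Prop where
  bij : Function.Bijective f
  zero : f M.zero = N.zero
  one : f M.one = N.one
  bot : f M.bot = N.bot
  add : ∀ a b, f (M.add a b) = N.add (f a) (f b)
  neg : ∀ a, f (M.neg a) = N.neg (f a)
  mul : ∀ a b, f (M.mul a b) = N.mul (f a) (f b)
  div : ∀ a b, f (M.div a b) = N.div (f a) (f b)

/-- `M` is (isomorphic to) an integral domain with common division. -/
def IsCID {X : Type u} (M : Alg X) : Prop :=
  ∃ (D : Type u) (_ : CommRing D) (_ : IsDomain D) (f : X → Option D), IsIso M (enl D) f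

/-- `M` is (isomorphic to) a commutative ring with common division. -/
def IsCR {X : Type u} (M : Alg X) : Prop :=
  ∃ (R : Type u) (_ : CommRing R) (f : X → Option R), IsIso M (enl R) f

open PowerSeries

/-- The ring of the pairs of power series with the same constant coefficient. -/
noncomputable def R : Subring (ℚ⟦X⟧ × ℚ⟦X⟧) :=
  RingHom.eqLocus ((constantCoeff (R := ℚ)).comp (RingHom.fst ℚ⟦X⟧ ℚ⟦X⟧))
    ((constantCoeff (R := ℚ)).comp (RingHom.snd ℚ⟦X⟧ ℚ⟦X⟧))

theorem mem_R (p : ℚ⟦X⟧ × ℚ⟦X⟧) : p ∈ R ↔ constantCoeff p.1 = constantCoeff p.2 := Iff.rfl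

/-- The two projections. -/
noncomputable def pr (i : Bool) : R →+* ℚ⟦X⟧ :=
  match i with
  | true => (RingHom.fst ℚ⟦X⟧ ℚ⟦X⟧).comp R.subtype
  | false => (RingHom.snd ℚ⟦X⟧ ℚ⟦X⟧).comp R.subtype

theorem isUnit_of_const {p : R} (h : constantCoeff (p : ℚ⟦X⟧ × ℚ⟦X⟧).1 ≠ 0) : IsUnit p := by
  have h2 : constantCoeff (p : ℚ⟦X⟧ × ℚ⟦X⟧).2 ≠ 0 := by
    rw [← (mem_R _).1 p.2]; exact h
  have hmem : ((p : ℚ⟦X⟧ × ℚ⟦X⟧).1⁻¹, (p : ℚ⟦X⟧ × ℚ⟦X⟧).2⁻¹) ∈ R := by
    rw [mem_R]
    simp only [constantCoeff_inv]
    rw [(mem_R _).1 p.2]
  refine IsUnit.of_mul_eq_one ⟨_, hmem⟩ ?_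
  apply Subtype.ext
  apply Prod.ext
  · exact PowerSeries.mul_inv_cancel _ h
  · exact PowerSeries.mul_inv_cancel _ h2

theorem isUnit_pr (i : Bool) (p : R) : IsUnit (pr i p) ↔ IsUnit p := by
  constructor
  · intro h
    apply isUnit_of_const
    have h1 : IsUnit (constantCoeff (pr i p)) := h.map _
    cases i
    · rw [(mem_R _).1 p.2]
      exact h1.ne_zero
    · exact h1.ne_zero
  · exact fun h => h.map _

theorem map_inverse (i : Bool) {p : R} (h : IsUnit p) :
    pr i (Ring.inverse p) = Ring.inverse (pr i p) := by
  obtain ⟨u, rfl⟩ := h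
  rw [Ring.inverse_unit]
  have : (pr i (u : R)) = ((Units.map (pr i : R →* ℚ⟦X⟧) u : ℚ⟦X⟧ˣ) : ℚ⟦X⟧) := rfl
  rw [this, Ring.inverse_unit]
  rfl

theorem eval_pr (i : Bool) (e : ℕ → Option R) (t : Term) :
    (t.eval (enl R) e).map (pr i) = t.eval (enl ℚ⟦X⟧) (fun k => (e k).map (pr i)) := by
  classical
  induction t with
  | var i => rfl
  | zero => simp [Term.eval, enl]
  | one => simp [Term.eval, enl]
  | bot => simp [Term.eval, enl]
  | add s t hs ht =>
    simp only [Term.eval, ← hs, ← ht]
    rcases s.eval (enl R) e with _ | a <;> rcases t.eval (enl R) e with _ | b <;> simp [enl]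
  | neg s hs =>
    simp only [Term.eval, ← hs]
    rcases s.eval (enl R) e with _ | a <;> simp [enl]
  | mul s t hs ht =>
    simp only [Term.eval, ← hs, ← ht]
    rcases s.eval (enl R) e with _ | a <;> rcases t.eval (enl R) e with _ | b <;> simp [enl]
  | div s t hs ht =>
    simp only [Term.eval, ← hs, ← ht]
    rcases s.eval (enl R) e with _ | a
    · simp [enl]
    rcases t.eval (enl R) e with _ | b
    · simp [enl]
    by_cases hb : IsUnit b
    · have hb' := (isUnit_pr i b).2 hb
      simp [enl, hb, hb', map_inverse i hb]
    · have hb' : ¬ IsUnit (pr i b) := fun h => hb ((isUnit_pr i b).1 h)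
      simp [enl, hb, hb']

theorem pr_injective {a b : Option R} (h : ∀ i, a.map (pr i) = b.map (pr i)) : a = b := by
  rcases a with _ | a <;> rcases b with _ | b
  · rfl
  · simpa using h true
  · simpa using h true
  · congr 1
    apply Subtype.ext
    apply Prod.ext
    · have := h true
      simp only [Option.map_some, Option.some.injEq] at this
      exact this
    · have := h false
      simp only [Option.map_some, Option.some.injEq] at this
      exact this

theorem sat_R (q : CondEq) (h : (enl ℚ⟦X⟧).Sat q) : (enl R).Sat q := by
  intro e he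
  apply pr_injective
  intro i
  rw [eval_pr, eval_pr]
  apply h
  intro p hp
  rw [← eval_pr, ← eval_pr, he p hp]

/-- **Main theorem.** There is a commutative ring with common division `M = Enl_⊥(R_÷)` which
satisfies all conditional equations that are true in all integral domains with common division, but
which is not an integral domain with common division. Consequently (second part) there is no set `T`
of conditional equations, each true in all integral domains with common division, such that a
commutative ring with common division is an integral domain with common division iff all members of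
`T` are true in it. -/
theorem result :
    (∃ (R : Type) (_ : CommRing R), ¬ IsCID (enl R) ∧
      ∀ q : CondEq, (∀ (D : Type) [CommRing D] [IsDomain D], (enl D).Sat q) → (enl R).Sat q) ∧
    ¬ ∃ T : Set CondEq, (∀ q ∈ T, ∀ (X : Type) (M : Alg X), IsCID M → M.Sat q) ∧
      ∀ (X : Type) (M : Alg X), IsCR M → (IsCID M ↔ ∀ q ∈ T, M.Sat q) := by
  have h1 : ¬ IsCID (enl R) := by
    rintro ⟨D, _, _, f, hf⟩
    let a : R := ⟨(X, 0), by rw [mem_R]; simp⟩
    let b : R := ⟨(0, X), by rw [mem_R]; simp⟩
    have hab : a * b = 0 := by
      apply Subtype.ext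
      apply Prod.ext <;> simp [a, b]
    have ha : a ≠ 0 := by
      intro h
      have := congrArg (fun p : R => (p : ℚ⟦X⟧ × ℚ⟦X⟧).1) h
      exact PowerSeries.X_ne_zero this
    have hb : b ≠ 0 := by
      intro h
      have := congrArg (fun p : R => (p : ℚ⟦X⟧ × ℚ⟦X⟧).2) h
      exact PowerSeries.X_ne_zero this
    have key : ∀ c : R, c ≠ 0 → ∃ d : D, d ≠ 0 ∧ f (some c) = some d := by
      intro c hc
      rcases hfc : f (some c) with _ | d
      · have : f (some c) = f none := by rw [hfc]; exact hf.bot.symm
        exact absurd (hf.bij.1 this) (by simp)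
      · refine ⟨d, ?_, rfl⟩
        rintro rfl
        have : f (some c) = f (some 0) := by rw [hfc]; exact hf.zero.symm
        have := hf.bij.1 this
        simp only [Option.some.injEq] at this
        exact hc this
    obtain ⟨d1, hd1, e1⟩ := key a ha
    obtain ⟨d2, hd2, e2⟩ := key b hb
    have h3 := hf.mul (some a) (some b)
    rw [e1, e2] at h3
    have h4 : (enl R).mul (some a) (some b) = (enl R).zero := by
      simp [enl, hab]
    rw [h4, hf.zero] at h3
    simp only [enl, Option.some.injEq] at h3
    exact mul_ne_zero hd1 hd2 h3.symm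
  have h2 : ∀ q : CondEq, (∀ (D : Type) [CommRing D] [IsDomain D], (enl D).Sat q) →
      (enl R).Sat q := fun q hq => sat_R q (hq ℚ⟦X⟧)
  refine ⟨⟨R, inferInstance, h1, h2⟩, ?_⟩
  rintro ⟨T, hT, hT2⟩
  have hid : ∀ (S : Type) [CommRing S], IsIso (enl S) (enl S) id := fun S _ =>
    ⟨Function.bijective_id, rfl, rfl, rfl, fun _ _ => rfl, fun _ => rfl, fun _ _ => rfl,
      fun _ _ => rfl⟩
  refine h1 ((hT2 _ (enl R) ⟨R, inferInstance, id, hid R⟩).2 fun q hq => h2 q ?_)
  intro D _ _
  exact hT q hq _ _ ⟨D, inferInstance, inferInstance, id, hid D⟩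

end Pool.Agent.Results.MP_faa006_lc.NotDefinable
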